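import Pool.Agent.H64.FL.Core
import Pool.Agent.H16.FT.Key

/-!
# Complete intersections, quotients, maps with small fibres
-/

set_option autoImplicit false

open Matrix

namespace Pool.Agent.H64.FL

open Pool.Agent.H64.CC Pool.Agent.H64.FT

variable {K : Type} [Field K] [CharZero K] {W : Weil K}

/-- SEC: complete intersections -/
theorem pure_sect (_hW : W.Calculus) {n m : ℕ} {V : W.Var n} {S : W.Var m} (s : Section W V S)
    {j : ℕ} (hj : j < W.dim S) (h : Pure W V j) : Pure W S j := by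
  obtain ⟨ρ, hρ, hpρ, hinj⟩ := h
  have hd := s.dim_eq
  refine ⟨s.up * ρ * s.down, ?_, ?_, ?_⟩
  · have h1 := s.restrict _ ρ hρ
    have e : (j : ℤ) - W.dim V + s.r = (j : ℤ) - W.dim S := by omega
    rw [e] at h1
    exact h1
  · rw [← Matrix.mul_assoc, ← Matrix.mul_assoc, pj_comm s.up_deg j j (by ring),
      Matrix.mul_assoc s.up, hpρ]
  · intro w hw h0
    rw [← Matrix.mulVec_mulVec, ← Matrix.mulVec_mulVec] at h0
    have hw1 : W.InH V (2 * W.dim V - j) (s.down *ᵥ w) := inH_shift s.down_deg (by omega) hw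
    have hw2 : W.InH V j (ρ *ᵥ (s.down *ᵥ w)) := by
      rw [← hpρ, ← Matrix.mulVec_mulVec]
      exact inH_pj' j _
    have h1 := s.inj_up j hj.le _ hw2 h0
    have h2 := hinj _ hw1 h1
    exact s.inj_down (2 * W.dim S - j) (by omega) w hw h2

theorem pf_SEC : T_SEC := by
  intro K _ _ W hW n m V S s j hj h
  exact pure_sect hW s hj h

theorem alg_NS (hW : W.Calculus) {n : ℕ} {X Y : W.Var n} {f : W.Hom X Y} (hf : f ∈ W.cyc X Y 0)
    {v : W.H X} (hv : v ∈ NS W X) : f *ᵥ v ∈ NS W Y := by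
  unfold NS at hv
  induction hv using Submodule.span_induction with
  | mem x hx =>
    have h1 := hW.ap_mem X Y 0 1 f hf x hx
    rw [add_zero] at h1
    exact Submodule.subset_span h1
  | zero => rw [Matrix.mulVec_zero]; exact Submodule.zero_mem _
  | add x y _ _ h1 h2 => rw [Matrix.mulVec_add]; exact Submodule.add_mem _ h1 h2
  | smul c x _ h1 => rw [Matrix.mulVec_smul]; exact Submodule.smul_mem _ c h1

theorem curves_NS (hW : W.Calculus) {n : ℕ} {X Y : W.Var n} {f : W.Hom X Y}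
    (hf : f ∈ W.cyc X Y ((2 : ℤ) - W.dim X)) {v : W.H X} (hv : v ∈ Curves W X) :
    f *ᵥ v ∈ NS W Y := by
  unfold Curves at hv
  induction hv using Submodule.span_induction with
  | mem x hx =>
    have h1 := hW.ap_mem X Y _ _ f hf x hx
    have e : (W.dim X : ℤ) - 1 + (2 - W.dim X) = 1 := by ring
    rw [e] at h1
    exact Submodule.subset_span h1
  | zero => rw [Matrix.mulVec_zero]; exact Submodule.zero_mem _
  | add x y _ _ h1 h2 => rw [Matrix.mulVec_add]; exact Submodule.add_mem _ h1 h2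
  | smul c x _ h1 => rw [Matrix.mulVec_smul]; exact Submodule.smul_mem _ c h1

/-- QUO: quotients -/
theorem crit_quot (hW : W.Calculus) (hL : W.Lefschetz) {n : ℕ} {V X : W.Var n}
    (q : Quotient W V X) (hX : 2 ≤ W.dim X) (h : Pure W V 2) : Crit W X := by
  have hd := q.dim_eq
  obtain ⟨θ, hθ, hpθ, hθL⟩ := core hW hL (by omega) h q.L_mem
  have ha := q.a_mem
  have hb := q.b_mem
  have hLp := pow_cyc hW (hL.mem V _ q.L_mem) (W.dim V - 2)
  have h1 : q.a * θ * q.b ∈ W.cyc X X ((2 : ℤ) - W.dim X) :=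
    comp_cyc hW hb (comp_cyc hW hθ ha (by ring) : q.a * θ ∈ W.cyc V X (((2 : ℕ) : ℤ) - W.dim V))
      (by push_cast; omega)
  obtain ⟨c, hc⟩ : ∃ c : K, c = (q.M : K) * (Fintype.card q.G : K) * (q.N : K) := ⟨_, rfl⟩
  have hc0 : c ≠ 0 := by
    rw [hc]
    have h2 := q.N_pos
    have h3 := q.M_pos
    have h4 : 0 < Fintype.card q.G := Fintype.card_pos
    refine mul_ne_zero (mul_ne_zero ?_ ?_) ?_ <;> exact_mod_cast (by omega)
  refine ⟨q.a * θ * q.b, h1, fun u hu => ?_⟩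
  have hbu : W.InH V 2 (q.b *ᵥ u) := inH_mulVec (hW.cyc_deg X V 0 _ hb) hu
  obtain ⟨w, hw⟩ : ∃ w, w = q.L ^ (W.dim V - 2) *ᵥ (q.b *ᵥ u) := ⟨_, rfl⟩
  have hwd : W.InH V (2 * W.dim V - 2) w := by
    rw [hw]
    exact inH_shift (hW.cyc_deg V V _ _ hLp) (by omega) hbu
  have hθw : θ *ᵥ w = q.b *ᵥ u := by
    rw [hw, Matrix.mulVec_mulVec, hθL, pj_mulVec 2 _ hbu]
  have hγw : ∀ g, q.γ g *ᵥ w = w := by
    intro g
    have h2 : Commute (q.γ g) (q.L ^ (W.dim V - 2)) := (show Commute (q.γ g) q.L from q.γ_L g).pow_right _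
    have h3 : q.γ g * q.b = q.b := q.γ_b g
    rw [hw, Matrix.mulVec_mulVec, h2.eq, ← Matrix.mulVec_mulVec, Matrix.mulVec_mulVec u, h3]
  have hba := q.ba w hwd
  simp only [Weil.ap, Weil.comp, hγw, Finset.sum_const, Finset.card_univ] at hba
  obtain ⟨c₁, hc₁⟩ : ∃ c₁, c₁ = (q.b * q.a) *ᵥ w - (q.M : K) • Fintype.card q.G • w := ⟨_, rfl⟩
  rw [← hc₁] at hba
  have hab := q.ab u hu
  simp only [Weil.ap, Weil.comp] at hab
  obtain ⟨ν, hν⟩ : ∃ ν, ν = (q.a * q.b) *ᵥ u - (q.N : K) • u := ⟨_, rfl⟩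
  rw [← hν] at hab
  refine ⟨c⁻¹ • (q.a *ᵥ w), ?_, ?_⟩
  · intro a' ha'
    rw [Pi.smul_apply, smul_eq_mul] at ha'
    have h2 := right_ne_zero_of_mul ha'
    have h3 := inH_mulVec (hW.cyc_deg V X 0 _ ha) hwd a' h2
    omega
  · have e1 : (q.b * q.a) *ᵥ w = (q.M : K) • Fintype.card q.G • w + c₁ := by rw [hc₁]; abel
    have e2 : (q.a * q.b) *ᵥ u = (q.N : K) • u + ν := by rw [hν]; abel
    have e3 : (q.a * θ * q.b) *ᵥ (q.a *ᵥ w) =
        c • u + ((q.M : K) * (Fintype.card q.G : K)) • ν + q.a *ᵥ (θ *ᵥ c₁) := by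
      have e4 : (q.a * θ * q.b) *ᵥ (q.a *ᵥ w) = q.a *ᵥ (θ *ᵥ ((q.b * q.a) *ᵥ w)) := by
        simp only [Matrix.mulVec_mulVec, Matrix.mul_assoc]
      have e5 : (q.M : K) • Fintype.card q.G • w = ((q.M : K) * (Fintype.card q.G : K)) • w := by
        rw [← Nat.cast_smul_eq_nsmul K, smul_smul]
      rw [e4, e1, e5, Matrix.mulVec_add, Matrix.mulVec_smul, hθw, Matrix.mulVec_add,
        Matrix.mulVec_smul, Matrix.mulVec_mulVec u, e2, smul_add, smul_smul, ← hc]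
    rw [Matrix.mulVec_smul, e3, smul_add, smul_add, smul_smul, inv_mul_cancel₀ hc0, one_smul]
    have e6 : u - (u + c⁻¹ • ((q.M : K) * (Fintype.card q.G : K)) • ν + c⁻¹ • q.a *ᵥ (θ *ᵥ c₁)) =
        -(c⁻¹ • ((q.M : K) * (Fintype.card q.G : K)) • ν + c⁻¹ • q.a *ᵥ (θ *ᵥ c₁)) := by abel
    rw [e6]
    refine Submodule.neg_mem _ (Submodule.add_mem _ ?_ ?_)
    · exact Submodule.smul_mem _ _ (Submodule.smul_mem _ _ hab)
    · exact Submodule.smul_mem _ _ (alg_NS hW ha (curves_NS hW hθ hba))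

theorem pf_QUO : T_QUO := by
  intro K _ _ W hW hL _ n V X q hX h
  exact crit_quot hW hL q hX h

/-- OVR: maps with small fibres -/
theorem crit_over (hW : W.Calculus) (hL : W.Lefschetz) {n : ℕ} {Z X : W.Var n}
    (h : Over W Z X) (hZ : Pure W Z 2) : Crit W X := by
  obtain ⟨h2, β, hβ, π, hπ, hsurj, hgen⟩ := h
  obtain ⟨L, hLZ⟩ := hL.nonempty Z
  obtain ⟨θ, hθ, hpθ, hθL⟩ := core hW hL h2 hZ hLZ
  have hLp := pow_cyc hW (hL.mem Z L hLZ) (W.dim Z - 2)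
  refine ⟨β * θ * π, comp_cyc hW hπ (comp_cyc hW hθ hβ (by ring) :
    β * θ ∈ W.cyc Z X (((2 : ℕ) : ℤ) - W.dim Z)) (by push_cast; ring), fun u hu => ?_⟩
  obtain ⟨z, hz, hzu⟩ := hgen u hu
  obtain ⟨y, hy, hy2⟩ := hsurj (L ^ (W.dim Z - 2) *ᵥ z)
    (inH_shift (hW.cyc_deg Z Z _ _ hLp) (by omega) hz)
  refine ⟨y, hy, ?_⟩
  have hy3 : π *ᵥ y = L ^ (W.dim Z - 2) *ᵥ z := hy2
  rw [← Matrix.mulVec_mulVec, hy3, ← Matrix.mulVec_mulVec, Matrix.mulVec_mulVec z, hθL,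
    pj_mulVec 2 z hz]
  exact hzu

theorem pf_OVR : T_OVR := by
  intro K _ _ W hW hL _ n Z X h hZ
  exact crit_over hW hL h hZ

/-- COV: fibrations dominated by fibre products -/
theorem invariant_of_cover (hW : W.Calculus) {𝓕 : Fibrations W} {n : ℕ} {X : W.Var n}
    (h : FibreProductCover 𝓕 X) : Invariant 𝓕 X := by
  obtain ⟨Y, S₁, S₂, f, P, hdeg, ⟨Cl⟩, a, ha, b, hb, N, hN, hab, hfix⟩ := h
  refine ⟨Y, f, fun y hy hf => ?_⟩
  have h1 : W.InH (W.prod S₁ S₂) 2 (b *ᵥ y) := inH_mulVec (hW.cyc_deg _ _ 0 _ hb) hy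
  have h2 : b *ᵥ y ∈ NS W (W.prod S₁ S₂) :=
    Pool.Agent.H16.FT.fixed_prod P hdeg Cl h1 fun g hg => hfix y hy hf g hg
  have h3 := alg_NS hW ha h2
  have h4 := hab y hy
  simp only [Weil.ap, Weil.comp] at h4
  rw [Matrix.mulVec_mulVec] at h3
  have h5 := Submodule.sub_mem _ h3 h4
  rw [sub_sub_cancel] at h5
  have hN0 : (N : K) ≠ 0 := by exact_mod_cast hN.ne'
  have h6 := Submodule.smul_mem _ (N : K)⁻¹ h5
  rwa [smul_smul, inv_mul_cancel₀ hN0, one_smul] at h6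

theorem pf_COV : T_COV := by
  intro K _ _ W hW 𝓕 n X h
  exact invariant_of_cover hW h

end Pool.Agent.H64.FL
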