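import Pool.Agent.H64.FL.Targets
import Pool.Agent.H64.FT.Main
import Pool.Agent.H14.CB.RAT

/-!
# Pure isomorphisms
-/

set_option autoImplicit false

open Matrix

namespace Pool.Agent.H64.FL

open Pool.Agent.H64.CC Pool.Agent.H64.FT

variable {K : Type} [Field K] [CharZero K] {W : Weil K}

/-- maps of degree `2 r` shift the degree of vectors -/
theorem inH_shift {n m : ℕ} {X : W.Var n} {Y : W.Var m} {r : ℤ} {f : W.Hom X Y}
    (hf : W.HasDeg r f) {i j : ℕ} (h : (j : ℤ) = i + 2 * r) {x : W.H X} (hx : W.InH X i x) :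
    W.InH Y j (f *ᵥ x) := by
  intro b hb
  rw [Matrix.mulVec, dotProduct] at hb
  obtain ⟨a, _, ha⟩ := Finset.exists_ne_zero_of_sum_ne_zero hb
  have h1 : f b a ≠ 0 := left_ne_zero_of_mul ha
  have h2 : x a ≠ 0 := right_ne_zero_of_mul ha
  have h3 := hf b a h1
  have h4 := hx a h2
  omega

theorem inH_pj' {n : ℕ} {X : W.Var n} (i : ℕ) (v : W.H X) : W.InH X i (W.pj X i *ᵥ v) := by
  intro a ha
  by_contra h
  apply ha
  unfold Weil.pj
  rw [Matrix.mulVec_diagonal, if_neg h, zero_mul]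

theorem pj_not {n : ℕ} {X : W.Var n} {i j : ℕ} (hij : j ≠ i) {v : W.H X} (hv : W.InH X j v) :
    W.pj X i *ᵥ v = 0 := by
  ext a
  unfold Weil.pj
  rw [Matrix.mulVec_diagonal]
  by_cases h : W.deg X a = i
  · have : v a = 0 := by
      by_contra h2
      exact hij ((hv a h2).symm.trans h)
    rw [this, mul_zero, Pi.zero_apply]
  · rw [if_neg h, zero_mul, Pi.zero_apply]

theorem pj_idem {n : ℕ} (X : W.Var n) (i : ℕ) : W.pj X i * W.pj X i = W.pj X i := by
  rw [pj_mul_pj, if_pos rfl]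

/-- two maps are equal if they agree on homogeneous vectors -/
theorem mat_ext {n m : ℕ} {X : W.Var n} {Y : W.Var m} {f g : W.Hom X Y}
    (h : ∀ i v, W.InH X i v → f *ᵥ v = g *ᵥ v) : f = g := by
  refine ext_pj fun i => ?_
  rw [← sub_eq_zero, ← Matrix.sub_mul]
  refine mul_pj_eq_zero _ i fun x hx => ?_
  rw [Matrix.sub_mulVec, h i x hx, sub_self]

theorem comp_cyc (hW : W.Calculus) {n : ℕ} {X Y Z : W.Var n} {r s t : ℤ} {f : W.Hom X Y}
    {g : W.Hom Y Z} (hf : f ∈ W.cyc X Y r) (hg : g ∈ W.cyc Y Z s) (h : r + s = t) :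
    g * f ∈ W.cyc X Z t := by
  rw [← h]
  exact hW.comp_mem X Y Z r s f hf g hg

theorem pow_cyc (hW : W.Calculus) {n : ℕ} {X : W.Var n} {L : W.Hom X X} (hL : L ∈ W.cyc X X 1)
    (k : ℕ) : L ^ k ∈ W.cyc X X (k : ℤ) := by
  induction k with
  | zero => rw [pow_zero]; exact hW.one_mem X
  | succ k ih =>
    rw [pow_succ']
    exact comp_cyc hW ih hL (by push_cast; ring)

theorem pow0_cyc (hW : W.Calculus) {n : ℕ} {X : W.Var n} {x : W.Hom X X} (hx : x ∈ W.cyc X X 0)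
    (k : ℕ) : x ^ k ∈ W.cyc X X 0 := by
  induction k with
  | zero => rw [pow_zero]; exact hW.one_mem X
  | succ k ih =>
    rw [pow_succ']
    exact comp_cyc hW ih hx (by ring)

theorem aeval_cyc (hW : W.Calculus) {n : ℕ} {X : W.Var n} {x : W.Hom X X}
    (hx : x ∈ W.cyc X X 0) (g : Polynomial ℚ) : Polynomial.aeval x g ∈ W.cyc X X 0 := by
  induction g using Polynomial.induction_on' with
  | add p q hp hq =>
    rw [map_add]
    exact Submodule.add_mem _ hp hq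
  | monomial k q =>
    rw [Polynomial.aeval_monomial, Algebra.algebraMap_eq_smul_one, smul_mul_assoc, one_mul]
    exact Submodule.smul_mem _ q (pow0_cyc hW hx k)

/-- the traces of the powers of a correspondence of one degree are rational -/
theorem rat_trace (hW : W.Calculus) {n : ℕ} {X : W.Var n} (i : ℕ) {x : W.Hom X X}
    (hx : x ∈ W.cyc X X 0) (h : x * W.pj X i = x) : ∃ q : ℚ, x.trace = (q : K) := by
  obtain ⟨q, hq⟩ := hW.trace_formula X x hx
  have key : W.str x = (-1) ^ i * x.trace := by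
    unfold Weil.str
    rw [Matrix.trace, Finset.mul_sum]
    refine Finset.sum_congr rfl fun a _ => ?_
    rw [Matrix.diag_apply]
    by_cases ha : W.deg X a = i
    · rw [ha]
    · have : x a a = 0 := by
        rw [← h, mul_pj_apply, if_neg ha]
      rw [this, mul_zero, mul_zero]
  rw [key] at hq
  refine ⟨(-1) ^ i * q, ?_⟩
  push_cast
  rw [← hq, ← mul_assoc, ← mul_pow]
  norm_num

/-- an injective correspondence of one degree has an inverse, which is a polynomial in it -/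
theorem poly_inv (hW : W.Calculus) {n : ℕ} {X : W.Var n} {i : ℕ} {x : W.Hom X X}
    (hx : x ∈ W.cyc X X 0) (hpx : W.pj X i * x = x)
    (hinj : ∀ v, W.InH X i v → x *ᵥ v = 0 → v = 0) :
    ∃ g : Polynomial ℚ, Polynomial.aeval x g * x = W.pj X i := by
  have hdeg : W.HasDeg 0 x := hW.cyc_deg X X 0 x hx
  have hxp : x * W.pj X i = x := by rw [← pj_comm0 hdeg, hpx]
  obtain ⟨g, a, hg⟩ := Pool.Agent.H14.CB.pf_RAT K (W.rk X) x (fun j => by
    refine rat_trace hW i (pow0_cyc hW hx (j + 1)) ?_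
    rw [pow_succ, mul_assoc, hxp])
  have hpowi : ∀ (j : ℕ) (v), W.InH X i v → x ^ j *ᵥ v = 0 → v = 0 := by
    intro j
    induction j with
    | zero => intro v _ h0; simpa using h0
    | succ j ih =>
      intro v hv h0
      rw [pow_succ, ← Matrix.mulVec_mulVec] at h0
      exact hinj v hv (ih _ (inH_mulVec hdeg hv) h0)
  have hcomm : x * Polynomial.aeval x g = Polynomial.aeval x g * x := by
    have h1 : Polynomial.aeval x (Polynomial.X * g) = x * Polynomial.aeval x g := by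
      rw [map_mul, Polynomial.aeval_X]
    have h2 : Polynomial.aeval x (g * Polynomial.X) = Polynomial.aeval x g * x := by
      rw [map_mul, Polynomial.aeval_X]
    rw [← h1, ← h2, mul_comm]
  refine ⟨g, ?_⟩
  have hone : (1 - x * Polynomial.aeval x g) * W.pj X i = 0 := by
    refine mul_pj_eq_zero _ i fun v hv => ?_
    have hd : W.HasDeg 0 (1 - x * Polynomial.aeval x g) :=
      hW.cyc_deg X X 0 _ (Submodule.sub_mem _ (hW.one_mem X)
        (comp_cyc hW (aeval_cyc hW hx g) hx (by ring)))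
    refine hpowi a _ (inH_mulVec hd hv) ?_
    rw [Matrix.mulVec_mulVec, hg, Matrix.zero_mulVec]
  rw [sub_mul, one_mul, hcomm, mul_assoc, hxp, sub_eq_zero] at hone
  exact hone.symm

/-- CORE -/
theorem core (hW : W.Calculus) (hL : W.Lefschetz) {n : ℕ} {X : W.Var n} {i : ℕ}
    (hi : i ≤ W.dim X) (h : Pure W X i) {L : W.Hom X X} (hLX : L ∈ W.Lef X) :
    ∃ θ ∈ W.cyc X X ((i : ℤ) - W.dim X), W.pj X i * θ = θ ∧
      θ * L ^ (W.dim X - i) = W.pj X i := by
  obtain ⟨ρ, hρ, hpρ, hinj⟩ := h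
  have hLp := pow_cyc hW (hL.mem X L hLX) (W.dim X - i)
  have hx : ρ * L ^ (W.dim X - i) ∈ W.cyc X X 0 := comp_cyc hW hLp hρ (by omega)
  have hpx : W.pj X i * (ρ * L ^ (W.dim X - i)) = ρ * L ^ (W.dim X - i) := by
    rw [← mul_assoc, hpρ]
  obtain ⟨g, hg⟩ := poly_inv hW hx hpx (fun v hv h0 => by
    rw [← Matrix.mulVec_mulVec] at h0
    have h1 : W.InH X (2 * W.dim X - i) (L ^ (W.dim X - i) *ᵥ v) :=
      inH_shift (hW.cyc_deg X X _ _ hLp) (by omega) hv
    exact hL.inj X L hLX i hi v hv (hinj _ h1 h0))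
  obtain ⟨x, hxx⟩ : ∃ x, x = ρ * L ^ (W.dim X - i) := ⟨_, rfl⟩
  rw [← hxx] at hx hpx hg
  refine ⟨Polynomial.aeval x g * ρ, comp_cyc hW hρ (aeval_cyc hW hx g) (by ring), ?_, ?_⟩
  · rw [← mul_assoc, pj_comm0 (hW.cyc_deg X X 0 _ (aeval_cyc hW hx g)), mul_assoc, hpρ]
  · rw [mul_assoc, ← hxx, hg]

theorem core_pj (hW : W.Calculus) (hL : W.Lefschetz) {n : ℕ} {X : W.Var n} {i : ℕ}
    (hi : i ≤ W.dim X) (h : Pure W X i) : W.pj X i ∈ W.cyc X X 0 := by
  obtain ⟨L, hLX⟩ := hL.nonempty X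
  obtain ⟨θ, hθ, -, h2⟩ := core hW hL hi h hLX
  rw [← h2]
  exact comp_cyc hW (pow_cyc hW (hL.mem X L hLX) _) hθ (by omega)

theorem pf_CORE : T_CORE := by
  intro K _ _ W hW hL n X i hi h
  exact ⟨core_pj hW hL hi h, fun L hLX => core hW hL hi h hLX⟩

theorem bdeg_of_pure (hW : W.Calculus) (hL : W.Lefschetz) {n : ℕ} {X : W.Var n} {i : ℕ}
    (hi : i ≤ W.dim X) (h : Pure W X i) : W.BDeg X i := by
  intro L hLX
  obtain ⟨θ, hθ, h1, h2⟩ := core hW hL hi h hLX
  refine ⟨θ, hθ, ?_⟩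
  show θ * L ^ (W.dim X - i) * W.pj X i = W.pj X i
  rw [h2, pj_idem]

/-- PUR -/
theorem pure_of_bdeg (hW : W.Calculus) (hL : W.Lefschetz) {n : ℕ} {X : W.Var n} {i : ℕ}
    (hi : i ≤ W.dim X) (hpj : W.pj X i ∈ W.cyc X X 0) (h : W.BDeg X i) : Pure W X i := by
  obtain ⟨L, hLX⟩ := hL.nonempty X
  obtain ⟨θ, hθ, h1⟩ := h L hLX
  have h1' : θ * L ^ (W.dim X - i) * W.pj X i = W.pj X i := h1
  refine ⟨W.pj X i * θ, comp_cyc hW hθ hpj (by ring), by rw [← mul_assoc, pj_idem], ?_⟩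
  intro w hw h0
  obtain ⟨u, hu, hu2⟩ := hL.surj X L hLX i hi w hw
  have hu3 : L ^ (W.dim X - i) *ᵥ u = w := hu2
  have h2 : u = 0 := by
    have h3 : W.pj X i *ᵥ (θ *ᵥ (L ^ (W.dim X - i) *ᵥ u)) = 0 := by
      rw [hu3, Matrix.mulVec_mulVec]; exact h0
    have h4 : θ *ᵥ (L ^ (W.dim X - i) *ᵥ u) = u := by
      have h5 := congrArg (fun A : W.Hom X X => A *ᵥ u) h1'
      beta_reduce at h5
      rw [← Matrix.mulVec_mulVec, ← Matrix.mulVec_mulVec, pj_mulVec i u hu] at h5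
      exact h5
    rw [h4, pj_mulVec i u hu] at h3
    exact h3
  rw [← hu3, h2, Matrix.mulVec_zero]

theorem pf_PUR : T_PUR := by
  intro K _ _ W hW hL n X i hi hpj h
  exact pure_of_bdeg hW hL hi hpj h

/-- SIG -/
theorem sig_of_pure (hW : W.Calculus) {n : ℕ} {X : W.Var n} {i : ℕ}
    (hi : i ≤ W.dim X) (h : Pure W X i) : Sig W X (2 * W.dim X - i) := by
  obtain ⟨ρ, hρ, hpρ, hinj⟩ := h
  refine ⟨ρ, ?_, ?_, hinj⟩
  · have e : ((W.dim X : ℤ) - ((2 * W.dim X - i : ℕ) : ℤ)) = (i : ℤ) - W.dim X := by omega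
    rw [e]
    exact hρ
  · rw [← pj_comm (hW.cyc_deg X X _ _ hρ) (2 * W.dim X - i) i (by omega), hpρ]

theorem sig_low (hW : W.Calculus) (hL : W.Lefschetz) {n : ℕ} {X : W.Var n} {a : ℕ}
    (ha : a ≤ W.dim X) (h : W.pj X a ∈ W.cyc X X 0) : Sig W X a := by
  obtain ⟨L, hLX⟩ := hL.nonempty X
  have hLp := pow_cyc hW (hL.mem X L hLX) (W.dim X - a)
  refine ⟨L ^ (W.dim X - a) * W.pj X a, comp_cyc hW h hLp (by omega), ?_, ?_⟩
  · rw [mul_assoc, pj_idem]
  · intro v hv h0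
    rw [← Matrix.mulVec_mulVec, pj_mulVec a v hv] at h0
    exact hL.inj X L hLX a ha v hv h0

theorem pf_SIG : T_SIG := by
  intro K _ _ W hW hL n X
  exact ⟨fun i hi h => sig_of_pure hW hi h, fun a ha h => sig_low hW hL ha h⟩

end Pool.Agent.H64.FL
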