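import Pool.Agent.H64.FT.Cases

/-!
# The Lefschetz standard conjecture for fibred varieties: definitions
-/

set_option autoImplicit false

namespace Pool.Agent.H64.FL

open Pool.Agent.H64.CC Pool.Agent.H64.FT

variable {K K' : Type} [Field K] [CharZero K] [Field K'] [CharZero K']

/-- the `K`-linear combinations of the classes of curves on `X` -/
def Curves (W : Weil K) {n : ℕ} (X : W.Var n) : Submodule K (W.H X) :=
  Submodule.span K (W.alg X ((W.dim X : ℤ) - 1) : Set (W.H X))

/-- `φ` is the functional on `H(X)` given by the intersection numbers with a divisor on `X`. Let `L`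
be the product with the class of an ample divisor and `d = dim X`. The number `φ(L ^ (d - 2) v)` is
rational for a divisor `v`, and the map `x ↦ φ(x) v` is the correspondence given by the product of
the two divisors -/
def IsDivisor (W : Weil K) {n : ℕ} (X : W.Var n) (L : W.Hom X X) (φ : W.H X) : Prop :=
  ∀ v ∈ W.alg X 1, (∃ q : ℚ, φ ⬝ᵥ W.ap (W.pw L (W.dim X - 2)) v = (q : K)) ∧
    Matrix.vecMulVec v φ ∈ W.cyc X X ((2 : ℤ) - W.dim X)

/-- known theorems on divisors and on abelian varieties:

* `low`: the Lefschetz standard conjecture holds in the degrees `0` and `1` (Kleiman), from the theory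
  of the Picard and Albanese varieties;
* `index`: the form `D D' L ^ (d - 2)` on the divisors modulo homological equivalence is
  non-degenerate, by the Hodge index theorem (and as homological and numerical equivalence of divisors
  coincide, by the theorem of Matsusaka) -/
structure Divisors (W : Weil K) : Prop where
  low : ∀ {n : ℕ} (X : W.Var n), W.BDeg X 0 ∧ W.BDeg X 1
  index : ∀ {n : ℕ} (X : W.Var n), 2 ≤ W.dim X → ∀ L ∈ W.Lef X, ∀ v ∈ W.alg X 1, v ≠ 0 →
    ∃ φ, IsDivisor W X L φ ∧ φ ⬝ᵥ W.ap (W.pw L (W.dim X - 2)) v ≠ 0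

/-- Further properties of a fibration `f` over a curve:

* `spread`: let `M` be the product with an ample class on `X` and `L` its restriction to `Y`. A
  correspondence `l` on `Y`, of degree `-2k`, which commutes with the monodromy group is defined over
  the function field of `C`, and with its closure `Λ` in the fibre product of `X` with itself over
  `C`, the composition `Λ M ^ k` is compatible with `l L ^ k`;
* `lift`: a combination of classes of divisors on `Y` which is fixed by the monodromy group is the
  restriction of a combination of classes of divisors on `X`; for the group acts on the classes of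
  divisors through a finite group, and a divisor over the function field of `C` has a closure in
  `X`. -/
structure Fibrations.Closure {W : Weil K} (𝓕 : Fibrations W) {n : ℕ} {X : W.Var n}
    {Y : W.Var (n + 1)} (f : 𝓕.Fib X Y) : Prop where
  spread : ∃ M ∈ W.Lef X, ∃ L ∈ W.Lef Y, (∀ g ∈ 𝓕.mon f, W.comp g L = W.comp L g) ∧
    ∀ (k : ℕ), ∀ l ∈ W.cyc Y Y (-(k : ℤ)), (∀ g ∈ 𝓕.mon f, W.comp g l = W.comp l g) →
      ∃ Λ ∈ W.cyc X X (-(k : ℤ)),
        𝓕.Compatible f (W.comp Λ (W.pw M k)) (W.comp l (W.pw L k))
  lift : ∀ y ∈ NS W Y, Fixed W (𝓕.mon f) y → ∃ x ∈ NS W X, W.ap (𝓕.res f) x = y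

/-- `T`, over `F m`, is a smooth complete intersection of ample divisors on the base change to `F m`
of `V`, a variety over `F n`, `n ≤ m` (the base change does not change the cohomology). `up` and
`down` are the restriction `H(V) → H(T)` and the Gysin map `H(T) → H(V)`. By the weak Lefschetz
theorem `up` is injective in the degrees at most `dim T` and `down` is injective in the degrees
greater than `dim T`; the restrictions to `T × T` of the classes of cycles on `V × V` are classes of
cycles -/
structure Section (W : Weil K) {n m : ℕ} (V : W.Var n) (T : W.Var m) where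
  r : ℕ
  up : W.Hom V T
  down : W.Hom T V
  dim_eq : W.dim T + r = W.dim V
  up_deg : W.HasDeg 0 up
  down_deg : W.HasDeg r down
  inj_up : ∀ i ≤ W.dim T, ∀ v, W.InH V i v → W.ap up v = 0 → v = 0
  inj_down : ∀ i, W.dim T < i → ∀ v, W.InH T i v → W.ap down v = 0 → v = 0
  restrict : ∀ (s : ℤ), ∀ c ∈ W.cyc V V s, W.comp (W.comp up c) down ∈ W.cyc T T (s + r)

/-- Let the finite group `G` act on `V`, and let `X` be a smooth projective variety with a dominant
rational map from `V` to `X` which induces a purely inseparable map of degree `M` from `V / G` to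
`X`. For example `G = 1` and the map is birational or purely inseparable.

* `L` is the product with a `G`-invariant ample class on `V`, `γ g` is the action of `g` on `H(V)`;
* `a` and `b` are given by the closure of the graph of the rational map, of degree `N`. The
  correspondences `a b - N` and `b a - M ∑ γ g` are supported on `E × E'`, where `E` and `E'` have
  codimension `1`. Such a correspondence maps `H²` to the combinations of the classes of divisors,
  and `H^(2d - 2)`, where `d` is the dimension, to the combinations of the classes of curves. -/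
structure Quotient (W : Weil K) {n : ℕ} (V X : W.Var n) where
  a : W.Hom V X
  b : W.Hom X V
  L : W.Hom V V
  G : Type
  [fin : Fintype G]
  [nonempty : Nonempty G]
  γ : G → W.Hom V V
  N : ℕ
  M : ℕ
  dim_eq : W.dim V = W.dim X
  N_pos : 0 < N
  M_pos : 0 < M
  a_mem : a ∈ W.cyc V X 0
  b_mem : b ∈ W.cyc X V 0
  L_mem : L ∈ W.Lef V
  γ_deg : ∀ g, W.HasDeg 0 (γ g)
  γ_L : ∀ g, W.comp (γ g) L = W.comp L (γ g)
  γ_b : ∀ g, W.comp (γ g) b = b
  ab : ∀ u, W.InH X 2 u → W.ap (W.comp a b) u - (N : K) • u ∈ NS W X
  ba : ∀ y, W.InH V (2 * W.dim V - 2) y →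
    W.ap (W.comp b a) y - (M : K) • ∑ g, W.ap (γ g) y ∈ Curves W V

attribute [instance] Quotient.fin Quotient.nonempty

/-- there is a dominant map from `X` to a variety `Z` of dimension at least `2` such that `H²(X)` is
generated by the classes of divisors and by the inverse image of `H²(Z)`; for example the fibres are
rationally connected. Here `β` is the pull-back and `π` is the push-forward, which is surjective -/
def Over (W : Weil K) {n : ℕ} (Z X : W.Var n) : Prop :=
  2 ≤ W.dim Z ∧ ∃ β ∈ W.cyc Z X 0, ∃ π ∈ W.cyc X Z ((W.dim Z : ℤ) - W.dim X),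
    (∀ z, W.InH Z (2 * W.dim Z - 2) z →
      ∃ y, W.InH X (2 * W.dim X - 2) y ∧ W.ap π y = z) ∧
    ∀ u, W.InH X 2 u → ∃ z, W.InH Z 2 z ∧ u - W.ap β z ∈ NS W X

/-- The fibration `f` of `X` over a curve is dominated by the fibre product of two surfaces: the
geometric generic fibre `Y` of `f` is dominated by the product `S₁ × S₂` of the geometric generic
fibres of two surfaces fibred over a finite covering of the curve, where `H¹(S₁)` degenerates; `a` and
`b` are the push-forward and the pull-back, and the pull-back of a class which is fixed by the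
monodromy group of `f` is fixed by the image of the group `P.π` -/
def FibreProductCover {W : Weil K} (𝓕 : Fibrations W) {n : ℕ} (X : W.Var n) : Prop :=
  ∃ (Y S₁ S₂ : W.Var (n + 1)) (f : 𝓕.Fib X Y) (P : Pool.Agent.H16.FT.CurvePair W S₁ S₂),
    P.Degenerates ∧ Nonempty P.Class ∧
    ∃ a ∈ W.cyc (W.prod S₁ S₂) Y 0, ∃ b ∈ W.cyc Y (W.prod S₁ S₂) 0, ∃ N : ℕ, 0 < N ∧
      (∀ y, W.InH Y 2 y → W.ap (W.comp a b) y - (N : K) • y ∈ NS W Y) ∧
      ∀ y, W.InH Y 2 y → Fixed W (𝓕.mon f) y → ∀ g ∈ P.π,
        W.ap (W.ext (P.ρ₁ g) (P.ρ₂ g)) (W.ap b y) = W.ap b y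

/-- `X` is a model of the quotient, by a finite group, of the product of two varieties of dimension at
most `2` -/
def ProductQuotient (W : Weil K) {n : ℕ} (X : W.Var n) : Prop :=
  ∃ A B : W.Var n, W.dim A ≤ 2 ∧ W.dim B ≤ 2 ∧ Nonempty (Quotient W (W.prod A B) X)

/-- Two Weil cohomologies of the same varieties, for cycles of all dimensions: `cls X r f f'`: there
is a cycle with rational coefficients on `X × X`, of codimension `dim X + r`, whose classes in the two
theories are `f` and `f'` -/
structure Degrees {W : Weil K} {W' : Weil K'} (Φ : Pool.Agent.H90.FT.Comparison W W') where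
  cls : ∀ {n : ℕ} (X : W.Var n), ℤ → W.Hom X X → W'.Hom (Φ.var X) (Φ.var X) → Prop
  dim : ∀ {n : ℕ} (X : W.Var n), W'.dim (Φ.var X) = W.dim X
  left : ∀ {n : ℕ} (X : W.Var n) (r : ℤ), ∀ f ∈ W.cyc X X r, ∃ f', cls X r f f'
  right : ∀ {n : ℕ} (X : W.Var n) (r : ℤ), ∀ f' ∈ W'.cyc (Φ.var X) (Φ.var X) r, ∃ f, cls X r f f'
  mem : ∀ {n : ℕ} (X : W.Var n) (r : ℤ) (f : W.Hom X X) (f' : W'.Hom (Φ.var X) (Φ.var X)),
    cls X r f f' → f ∈ W.cyc X X r ∧ f' ∈ W'.cyc (Φ.var X) (Φ.var X) r
  one : ∀ {n : ℕ} (X : W.Var n), cls X 0 (W.id X) (W'.id (Φ.var X))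
  zero : ∀ {n : ℕ} (X : W.Var n) (f : W.Hom X X) (f' : W'.Hom (Φ.var X) (Φ.var X)),
    cls X 0 f f' → Φ.cls X f f'
  comp : ∀ {n : ℕ} (X : W.Var n) (r s : ℤ) (f g : W.Hom X X)
    (f' g' : W'.Hom (Φ.var X) (Φ.var X)), cls X r f f' → cls X s g g' →
    cls X (r + s) (W.comp g f) (W'.comp g' f')
  lef : ∀ {n : ℕ} (X : W.Var n), ∀ L ∈ W.Lef X, ∃ L' ∈ W'.Lef (Φ.var X), cls X 1 L L'
  lef' : ∀ {n : ℕ} (X : W.Var n), ∀ L' ∈ W'.Lef (Φ.var X), ∃ L ∈ W.Lef X, cls X 1 L L'

end Pool.Agent.H64.FL
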