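import Pool.Agent.H64.FL.Defs

/-!
# The Lefschetz standard conjecture for threefolds: the classification
-/

set_option autoImplicit false

namespace Pool.Agent.H64.FL

open Pool.Agent.H64.CC Pool.Agent.H64.FT

variable {K K' : Type} [Field K] [CharZero K] [Field K'] [CharZero K']

/-- The classification of curves and surfaces, for the `ℓ`-adic cohomology `W` and the crystalline
cohomology `W'` with their fibrations over curves:

* `kod X`: the Kodaira dimension of `X`; `Abelian A`: `A` is an abelian variety; `kleiman`: the
  Lefschetz standard conjecture holds for abelian varieties;
* `Genus1 X`: there is a dominant rational map from `X` to a variety of dimension `dim X - 1` whose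
  generic fibre is a geometrically irreducible curve of geometric genus at most `1`; `Uniruled X`:
  `X` is uniruled;
* `curves`: let `X → Z` be a threefold as in `Genus1`. After a purely inseparable base change and
  normalisation the generic fibre is a smooth curve over a perfect field. If it is a conic, then
  `H²(X)` is generated by the inverse image of `H²(Z)` and by divisors. If it is of genus `1` with
  constant `j`-invariant, then over a finite Galois extension it is isomorphic to a constant elliptic
  curve `E`, the Galois group `G` acts on `E × Z'` for a smooth projective surface `Z'` on which it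
  acts, since rational maps from `Z'` to `E` are morphisms, and `X` is a model of `(E × Z') / G`.
  Otherwise let `Z → C` be the Stein factorisation of the `j`-invariant. The fibration of `X` over
  `C` is dominated by the fibre product of an elliptic surface with non-constant `j`-invariant and of
  a surface, and the elliptic surface degenerates at the poles of `j`. The theorem of Zarhin and Mori
  on homomorphisms of abelian varieties is included in `CurvePair`;
* `surfaces`: let `f : X → C` be a fibration of a threefold over a curve with geometric generic fibre
  `Y` which is not of general type, and use the classification of Bombieri and Mumford. If `Y` is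
  of Kodaira dimension `1`, the fibration of `Y` by elliptic or quasi-elliptic curves is unique. If
  `Y` is ruled, an Enriques surface, a bielliptic or quasi-bielliptic surface, a supersingular `K3`
  surface or a supersingular abelian surface, then `H²(Y)` is generated by the classes of divisors.
  Otherwise `Y` is birational to a `K3` surface of finite height or to an abelian surface which is not
  supersingular. If the monodromy group acts non-trivially on the transcendental part `T` of `H²(Y)`,
  then `Y` is as in `SlopeSurface`. If it acts trivially on `T`, then it acts on `H²(Y)` through a
  finite group, and `f` is isotrivial: by the theorem of Zarhin, for `K3` surfaces applied to the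
  Kuga-Satake varieties with the étale period map of Madapusi Pera and of Kim and Madapusi Pera, and
  since outside the supersingular locus there are no families of such surfaces of constant isogeny
  type (the central leaves are open in the Newton strata). So `X` is a model of `(Y₀ × C') / G`,
  where `Y₀` is the minimal model and `G` is the Galois group of `C' → C`, up to a purely
  inseparable base change;
* `mrc`: for a uniruled threefold `X`, also if it is only inseparably uniruled, let `X → Z` be the
  maximal rationally chain connected fibration (Campana, Kollár). If `dim Z = 2` the generic fibre is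
  a curve of geometric genus `0`. If `dim Z ≤ 1` the zero-cycles of `X` are supported on a curve, and
  `H²(X)` is generated by the classes of divisors, by the decomposition of the diagonal (Bloch and
  Srinivas) -/
structure Geometry (W : Weil K) (𝓕 : Fibrations W) (W' : Weil K') (𝓕' : Fibrations W')
    (Φ : Pool.Agent.H90.FT.Comparison W W') where
  kod : ∀ {n : ℕ}, W.Var n → WithBot ℕ
  Abelian : ∀ {n : ℕ}, W.Var n → Prop
  kleiman : ∀ {n : ℕ} (A : W.Var n), Abelian A → W.B A
  Genus1 : ∀ {n : ℕ}, W.Var n → Prop
  Uniruled : ∀ {n : ℕ}, W.Var n → Prop
  curves : ∀ {n : ℕ} (X : W.Var n), W.dim X = 3 → Genus1 X →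
    ProductQuotient W X ∨ ∃ X' : W.Var n, Nonempty (Quotient W X' X) ∧
      ((∃ Z : W.Var n, W.dim Z = 2 ∧ Over W Z X') ∨ FibreProductCover 𝓕 X')
  surfaces : ∀ {n : ℕ} (X : W.Var n) (Y : W.Var (n + 1)) (_f : 𝓕.Fib X Y), W.dim Y = 2 →
    kod Y < 2 → Genus1 X ∨ ProductQuotient W X ∨ AllDivisors W Y ∨ Slope 𝓕' (Φ.var X)
  mrc : ∀ {n : ℕ} (X : W.Var n), W.dim X = 3 → Uniruled X → Genus1 X ∨ AllDivisors W X

variable {W : Weil K} {𝓕 : Fibrations W} {W' : Weil K'} {𝓕' : Fibrations W'}
  {Φ : Pool.Agent.H90.FT.Comparison W W'}

/-- The variety `X` has a dominant rational map to a curve whose fibres are surfaces which are not of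
general type: after a purely inseparable base change a model `X'` of `X` has a fibration over a curve
whose geometric generic fibre `Y` is a surface of Kodaira dimension less than `2` -/
def Geometry.Special (T : Geometry W 𝓕 W' 𝓕' Φ) {n : ℕ} (X : W.Var n) : Prop :=
  ∃ (X' : W.Var n) (Y : W.Var (n + 1)), Nonempty (Quotient W X' X) ∧ Nonempty (𝓕.Fib X' Y) ∧
    T.kod Y < 2

/-- A consequence of the theory of the Iitaka fibration, in every characteristic. The generic fibre
`F` of the Iitaka fibration of a threefold `X` of Kodaira dimension `1` or `2` is a regular surface
or curve over the function field of the base, of Kodaira dimension `0`. If `F'` is the normalisation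
of the reduced geometric generic fibre, then `K_F' + (p - 1) D` is the pull-back of `K_F`, for an
effective divisor `D` (Tate for curves, Tanaka, Patakfalvi and Waldron). So the smooth models of
`F'` are of Kodaira dimension at most `0`. So `X` has a dominant rational map to a surface whose
generic fibre is a curve of geometric genus at most `1`, or a dominant rational map to a curve whose
fibres are surfaces which are not of general type -/
def Geometry.Iitaka (T : Geometry W 𝓕 W' 𝓕' Φ) : Prop :=
  ∀ {n : ℕ} (X : W.Var n), W.dim X = 3 → T.kod X = 1 ∨ T.kod X = 2 → T.Genus1 X ∨ T.Special X

/-- Consequences of the minimal model program for threefolds, in characteristic `p > 5`. The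
threefolds of Kodaira dimension `-∞` are uniruled (Hacon and Xu, Birkar, Xu and Zhang). The geometric
generic fibre of the Albanese map of a threefold of Kodaira dimension `0`, after Stein factorisation,
is of Kodaira dimension at most `0`, if `H¹(X) ≠ 0` (Zhang) and the Albanese map is not generically
finite; if it is generically finite then `X` is birational to an abelian variety (Hacon, Patakfalvi
and Zhang) -/
def Geometry.MinimalModels (T : Geometry W 𝓕 W' 𝓕' Φ) : Prop :=
  ∀ {n : ℕ} (X : W.Var n), W.dim X = 3 →
    (T.kod X = ⊥ → T.Uniruled X) ∧ (T.kod X = 0 → ¬ Vanishes W X 1 →
      T.Genus1 X ∨ T.Special X ∨ ∃ A : W.Var n, T.Abelian A ∧ Nonempty (Quotient W A X))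

/-- The smallest class of smooth projective varieties with the following properties; the Lefschetz
standard conjecture in degree `2` holds for its members:

* it contains the varieties of dimension at most `2`, the abelian varieties, and the varieties `X`
  such that `H²(X)` is generated by the classes of divisors;
* `fib`, `fib'`: it contains every variety `X`, of any dimension, with a fibration over a curve, with
  geometric generic fibre `Y`, such that the classes in `H²(Y)` which are fixed by the monodromy
  group are combinations of classes of divisors, in one of the two cohomologies;
* `prod`, `quot`, `pull`: it is closed under products, it contains the models of `V / G` if it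
  contains `V`, and it contains `X` if it contains `Z` as in `Over`;
* `sect`: it contains the smooth complete intersections `T` of ample divisors, of dimension at least
  `3` and over any field `F m`, in its members. -/
inductive Class2 (T : Geometry W 𝓕 W' 𝓕' Φ) : ∀ {n : ℕ}, W.Var n → Prop
  | small {n : ℕ} (X : W.Var n) : W.dim X ≤ 2 → Class2 T X
  | abelian {n : ℕ} (A : W.Var n) : T.Abelian A → Class2 T A
  | divisors {n : ℕ} (X : W.Var n) : AllDivisors W X → Class2 T X
  | fib {n : ℕ} (X : W.Var n) : Invariant 𝓕 X → Class2 T X
  | fib' {n : ℕ} (X : W.Var n) : Invariant 𝓕' (Φ.var X) → Class2 T X
  | prod {n : ℕ} (X Y : W.Var n) : Class2 T X → Class2 T Y → Class2 T (W.prod X Y)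
  | quot {n : ℕ} (V X : W.Var n) : Quotient W V X → Class2 T V → Class2 T X
  | pull {n : ℕ} (Z X : W.Var n) : Over W Z X → Class2 T Z → Class2 T X
  | sect {n m : ℕ} (V : W.Var n) (S : W.Var m) : Section W V S → 3 ≤ W.dim S → Class2 T V →
      Class2 T S

/-- The smallest class of smooth projective varieties with the following properties; the Lefschetz
standard conjecture holds for its members:

* it contains the varieties of dimension at most `2`, the abelian varieties, and the threefolds in
  `Class2`;
* it is closed under products;
* it contains the smooth complete intersections of ample divisors, over any field `F m`, in its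
  members. -/
inductive ClassB (T : Geometry W 𝓕 W' 𝓕' Φ) : ∀ {n : ℕ}, W.Var n → Prop
  | small {n : ℕ} (X : W.Var n) : W.dim X ≤ 2 → ClassB T X
  | abelian {n : ℕ} (A : W.Var n) : T.Abelian A → ClassB T A
  | three {n : ℕ} (X : W.Var n) : W.dim X = 3 → Class2 T X → ClassB T X
  | prod {n : ℕ} (X Y : W.Var n) : ClassB T X → ClassB T Y → ClassB T (W.prod X Y)
  | sect {n m : ℕ} (V : W.Var n) (S : W.Var m) : Section W V S → ClassB T V → ClassB T S

end Pool.Agent.H64.FL
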