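import Pool.Agent.H64.FL.Geo

/-!
# The hypotheses on a cohomology theory
-/

set_option autoImplicit false

namespace Pool.Agent.H64.FL

open Pool.Agent.H64.CC Pool.Agent.H64.FT

variable {K : Type} [Field K] [CharZero K]

/-- A Weil cohomology `W` with Poincaré duality `D` and with the fibrations `𝓕` over curves: the
calculus of correspondences, the Künneth formula, the hard Lefschetz theorem, the theorems of
Kleiman, Matsusaka, Murre and the Hodge index theorem, the Leray spectral sequence of a fibration,
and the closures of correspondences. These are published properties of the `ℓ`-adic and of the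
crystalline cohomology -/
structure Cohomology (W : Weil K) (D : Duality W) (𝓕 : Fibrations W) : Prop where
  calculus : W.Calculus
  products : W.Products
  lefschetz : W.Lefschetz
  known : Known W D
  divisors : Divisors W
  fibrations : 𝓕.Theory D
  closure : ∀ {n : ℕ} {X : W.Var n} {Y : W.Var (n + 1)} (f : 𝓕.Fib X Y),
    Fibrations.Closure 𝓕 f

end Pool.Agent.H64.FL
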