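import Pool.Agent.H64.FL.Geo

/-!
# The Lefschetz standard conjecture for fibred varieties: targets
-/

set_option autoImplicit false

open Matrix

namespace Pool.Agent.H64.FL

open Pool.Agent.H64.CC Pool.Agent.H64.FT

section defs

variable {K : Type} [Field K] [CharZero K]

/-- an algebraic isomorphism from `H^(2d - i)` to `Hⁱ` which is zero in the other degrees -/
def Pure (W : Weil K) {n : ℕ} (X : W.Var n) (i : ℕ) : Prop :=
  ∃ ρ ∈ W.cyc X X ((i : ℤ) - W.dim X), W.pj X i * ρ = ρ ∧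
    ∀ w, W.InH X (2 * W.dim X - i) w → ρ *ᵥ w = 0 → w = 0

/-- the criterion in degree `2` -/
def Crit (W : Weil K) {n : ℕ} (X : W.Var n) : Prop :=
  ∃ θ ∈ W.cyc X X ((2 : ℤ) - W.dim X), ∀ u, W.InH X 2 u →
    ∃ y, W.InH X (2 * W.dim X - 2) y ∧ u - θ *ᵥ y ∈ NS W X

/-- an algebraic isomorphism from `Hᵃ` to `H^(2d - a)` -/
def Sig (W : Weil K) {n : ℕ} (X : W.Var n) (a : ℕ) : Prop :=
  ∃ σ ∈ W.cyc X X ((W.dim X : ℤ) - a), σ * W.pj X a = σ ∧
    ∀ v, W.InH X a v → σ *ᵥ v = 0 → v = 0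

end defs

/-- CORE -/
def T_CORE : Prop := ∀ (K : Type) [Field K] [CharZero K] (W : Weil K), W.Calculus → W.Lefschetz →
  ∀ (n : ℕ) (X : W.Var n) (i : ℕ), i ≤ W.dim X → Pure W X i →
    W.pj X i ∈ W.cyc X X 0 ∧ ∀ L ∈ W.Lef X, ∃ θ ∈ W.cyc X X ((i : ℤ) - W.dim X),
      W.pj X i * θ = θ ∧ θ * L ^ (W.dim X - i) = W.pj X i

/-- PUR: the converse -/
def T_PUR : Prop := ∀ (K : Type) [Field K] [CharZero K] (W : Weil K), W.Calculus → W.Lefschetz →
  ∀ (n : ℕ) (X : W.Var n) (i : ℕ), i ≤ W.dim X → W.pj X i ∈ W.cyc X X 0 → W.BDeg X i → Pure W X i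

/-- MU: the inverse of `L ^ (d - 2)` on the divisors -/
def T_MU : Prop := ∀ (K : Type) [Field K] [CharZero K] (W : Weil K), W.Calculus → Divisors W →
  ∀ (n : ℕ) (X : W.Var n), 2 ≤ W.dim X → ∀ L ∈ W.Lef X,
    ∃ μ ∈ W.cyc X X ((2 : ℤ) - W.dim X),
      (∀ v ∈ NS W X, μ *ᵥ (L ^ (W.dim X - 2) *ᵥ v) = v) ∧ ∀ y, μ *ᵥ y ∈ NS W X

/-- CRI: the criterion in degree `2` -/
def T_CRI : Prop := ∀ (K : Type) [Field K] [CharZero K] (W : Weil K) (D : Duality W), W.Calculus →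
  W.Lefschetz → Known W D → T_MU → Divisors W →
  ∀ (n : ℕ) (X : W.Var n), 2 ≤ W.dim X → Crit W X → Pure W X 2

/-- FIB: fibrations -/
def T_FIB : Prop := ∀ (K : Type) [Field K] [CharZero K] (W : Weil K) (D : Duality W), W.Calculus →
  W.Lefschetz → Known W D → Divisors W → ∀ (𝓕 : Fibrations W), 𝓕.Theory D →
  ∀ (n : ℕ) (X : W.Var n) (Y : W.Var (n + 1)) (f : 𝓕.Fib X Y), Fibrations.Closure 𝓕 f →
  3 ≤ W.dim X → (∀ y, W.InH Y 2 y → Fixed W (𝓕.mon f) y → y ∈ NS W Y) → Crit W X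

/-- QUO: quotients -/
def T_QUO : Prop := ∀ (K : Type) [Field K] [CharZero K] (W : Weil K), W.Calculus →
  W.Lefschetz → T_CORE → ∀ (n : ℕ) (V X : W.Var n), Quotient W V X → 2 ≤ W.dim X → Pure W V 2 →
  Crit W X

/-- OVR: maps with small fibres -/
def T_OVR : Prop := ∀ (K : Type) [Field K] [CharZero K] (W : Weil K), W.Calculus →
  W.Lefschetz → T_CORE → ∀ (n : ℕ) (Z X : W.Var n), Over W Z X → Pure W Z 2 → Crit W X

/-- SEC: complete intersections -/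
def T_SEC : Prop := ∀ (K : Type) [Field K] [CharZero K] (W : Weil K), W.Calculus →
  ∀ (n m : ℕ) (V : W.Var n) (S : W.Var m), Section W V S → ∀ j < W.dim S, Pure W V j → Pure W S j

/-- PRO: products -/
def T_PRO : Prop := ∀ (K : Type) [Field K] [CharZero K] (W : Weil K), W.Calculus → W.Products →
  ∀ (n : ℕ) (X Y : W.Var n) (i : ℕ), i ≤ W.dim (W.prod X Y) →
  (∀ a b : ℕ, a ≤ 2 * W.dim X → b ≤ 2 * W.dim Y → a + b = 2 * W.dim (W.prod X Y) - i →
    Sig W X a ∧ Sig W Y b) → Pure W (W.prod X Y) i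

/-- SIG -/
def T_SIG : Prop := ∀ (K : Type) [Field K] [CharZero K] (W : Weil K), W.Calculus → W.Lefschetz →
  ∀ (n : ℕ) (X : W.Var n), (∀ i ≤ W.dim X, Pure W X i → Sig W X (2 * W.dim X - i)) ∧
    ∀ a ≤ W.dim X, W.pj X a ∈ W.cyc X X 0 → Sig W X a

/-- ALL: the Lefschetz conjecture and the Künneth projectors -/
def T_ALL : Prop := ∀ (K : Type) [Field K] [CharZero K] (W : Weil K) (D : Duality W), W.Calculus →
  W.Lefschetz → ∀ (n : ℕ) (X : W.Var n), (∀ i < W.dim X, W.BDeg X i) →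
    W.C X ∧ W.B X ∧ ∀ i ≤ W.dim X, Pure W X i

/-- TRF: the comparison of two cohomologies -/
def T_TRF : Prop := ∀ (K K' : Type) [Field K] [CharZero K] [Field K'] [CharZero K'] (W : Weil K)
  (W' : Weil K') (Φ : Pool.Agent.H90.FT.Comparison W W'), Degrees Φ → W.Calculus → W'.Calculus →
  W.Lefschetz → W'.Lefschetz → T_CORE → ∀ (n : ℕ) (X : W.Var n) (i : ℕ), i ≤ W.dim X →
  (Pure W X i ↔ Pure W' (Φ.var X) i)

/-- COV: fibrations dominated by fibre products -/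
def T_COV : Prop := ∀ (K : Type) [Field K] [CharZero K] (W : Weil K), W.Calculus →
  ∀ (𝓕 : Fibrations W) (n : ℕ) (X : W.Var n), FibreProductCover 𝓕 X → Invariant 𝓕 X

end Pool.Agent.H64.FL
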