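import Pool.Agent.H64.FL.Core
import Pool.Agent.H90.FT.Transfer

/-!
# The comparison of two cohomologies
-/

set_option autoImplicit false

open Matrix

namespace Pool.Agent.H64.FL

open Pool.Agent.H64.CC Pool.Agent.H64.FT

/-- a matrix with the traces of an idempotent is unipotent on it -/
theorem unip_of_traces {m : ℕ} {L : Type} [Field L] [CharZero L] (M P : Matrix (Fin m) (Fin m) L)
    (hc : M * P = P * M) (hP : P * P = P)
    (h1 : ∀ k : ℕ, (M ^ k * P).trace = P.trace) : ∃ B : ℕ, (1 - M) ^ B * P = 0 := by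
  have hc1 : (1 - M) * P = P * (1 - M) := by rw [sub_mul, mul_sub, one_mul, mul_one, hc]
  obtain ⟨B, hB⟩ := nil_of_trace ((1 - M) * P) fun k => by
    rw [Pool.Agent.H90.FT.comm_pow hc1 hP]
    have e : (1 - M) ^ (k + 1) =
        Polynomial.aeval M ((1 - Polynomial.X : Polynomial L) ^ (k + 1)) := by
      rw [map_pow, map_sub, map_one, Polynomial.aeval_X]
    rw [e, Pool.Agent.H90.FT.trace_aeval M P h1, Polynomial.eval_pow, Polynomial.eval_sub,
      Polynomial.eval_one, Polynomial.eval_X, sub_self, zero_pow (Nat.succ_ne_zero k), zero_mul]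
  refine ⟨B + 1, ?_⟩
  rw [← Pool.Agent.H90.FT.comm_pow hc1 hP, pow_succ, hB, zero_mul]

/-- so it is injective on it -/
theorem inj_of_traces {m : ℕ} {L : Type} [Field L] [CharZero L] (M P : Matrix (Fin m) (Fin m) L)
    (hc : M * P = P * M) (hP : P * P = P)
    (h1 : ∀ k : ℕ, (M ^ k * P).trace = P.trace) (v : Fin m → L) (hv : P *ᵥ v = v)
    (h0 : M *ᵥ v = 0) : v = 0 := by
  obtain ⟨B, hB⟩ := unip_of_traces M P hc hP h1
  have h2 : ∀ k : ℕ, (1 - M) ^ k *ᵥ v = v := by
    intro k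
    induction k with
    | zero => rw [pow_zero, Matrix.one_mulVec]
    | succ k ih =>
      rw [pow_succ, ← Matrix.mulVec_mulVec, Matrix.sub_mulVec, h0, Matrix.one_mulVec, sub_zero, ih]
  have h3 := congrArg (fun A : Matrix (Fin m) (Fin m) L => A *ᵥ v) hB
  beta_reduce at h3
  rw [← Matrix.mulVec_mulVec, hv, h2, Matrix.zero_mulVec] at h3
  exact h3

variable {K K' : Type} [Field K] [CharZero K] [Field K'] [CharZero K'] {W : Weil K} {W' : Weil K'}

/-- the isomorphism for a correspondence which is injective on `Hⁱ` after composition with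
`L ^ (d - i)` -/
theorem pure_of_inj (hW : W.Calculus) (hL : W.Lefschetz) {n : ℕ} {X : W.Var n} {i : ℕ}
    (hi : i ≤ W.dim X) (hpj : W.pj X i ∈ W.cyc X X 0) {L : W.Hom X X} (hLX : L ∈ W.Lef X)
    {θ : W.Hom X X} (hθ : θ ∈ W.cyc X X ((i : ℤ) - W.dim X))
    (h : ∀ v, W.InH X i v → (θ * L ^ (W.dim X - i)) *ᵥ v = 0 → v = 0) : Pure W X i := by
  refine ⟨W.pj X i * θ, comp_cyc hW hθ hpj (by ring), by rw [← mul_assoc, pj_idem], ?_⟩
  intro w hw h0
  obtain ⟨u, hu, hu2⟩ := hL.surj X L hLX i hi w hw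
  have hu3 : L ^ (W.dim X - i) *ᵥ u = w := hu2
  have hLp := pow_cyc hW (hL.mem X L hLX) (W.dim X - i)
  have h1 : W.InH X i (θ *ᵥ w) := inH_shift (hW.cyc_deg X X _ _ hθ) (by omega) hw
  rw [← Matrix.mulVec_mulVec, pj_mulVec i _ h1] at h0
  have h2 : u = 0 := h u hu (by rw [← Matrix.mulVec_mulVec, hu3, h0])
  rw [← hu3, h2, Matrix.mulVec_zero]

theorem cls_pow {Φ : Pool.Agent.H90.FT.Comparison W W'} (E : Degrees Φ) {n : ℕ} {X : W.Var n}
    {L : W.Hom X X} {L' : W'.Hom (Φ.var X) (Φ.var X)} (h : E.cls X 1 L L') (k : ℕ) :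
    E.cls X (k : ℤ) (L ^ k) (L' ^ k) := by
  induction k with
  | zero => rw [pow_zero, pow_zero]; exact E.one X
  | succ k ih =>
    have h1 := E.comp X _ _ _ _ _ _ ih h
    rw [pow_succ', pow_succ']
    have e : ((k : ℤ) + 1) = ((k + 1 : ℕ) : ℤ) := by push_cast; rfl
    rw [e] at h1
    exact h1

theorem pf_TRF : T_TRF := by
  intro K K' _ _ _ _ W W' Φ E hW hW' hL hL' _ n X i hi
  have hd := E.dim X
  have hcpow : ∀ (f : W.Hom X X) (f' : W'.Hom (Φ.var X) (Φ.var X)), Φ.cls X f f' →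
      ∀ k : ℕ, Φ.cls X (f ^ k) (f' ^ k) := by
    intro f f' h k
    induction k with
    | zero => rw [pow_zero, pow_zero]; exact Φ.one X
    | succ k ih => rw [pow_succ, pow_succ]; exact Φ.comp X _ _ _ _ h ih
  have hkm := fun f f' (h : Φ.cls X f f') => Φ.traces X f f' h i
  simp only [Weil.tr, Weil.comp] at hkm
  constructor
  · intro h
    obtain ⟨L, hLX⟩ := hL.nonempty X
    obtain ⟨L', hLX', hcL⟩ := E.lef X L hLX
    obtain ⟨θ, hθ, -, hθL⟩ := core hW hL hi h hLX
    obtain ⟨θ', hcθ⟩ := E.left X _ θ hθ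
    have h1 := E.comp X _ _ _ _ _ _ (cls_pow E hcL (W.dim X - i)) hcθ
    have e : ((W.dim X - i : ℕ) : ℤ) + ((i : ℤ) - W.dim X) = 0 := by omega
    rw [e] at h1
    simp only [Weil.comp] at h1
    rw [hθL] at h1
    have h2 := E.zero X _ _ h1
    have hθ'm := (E.mem X _ _ _ hcθ).2
    rw [← hd] at hθ'm
    refine pure_of_inj hW' hL' (by omega)
      ((Φ.transfer hW hW' X (fun d => d = i)).1 (core_pj hW hL hi h)) hLX' hθ'm ?_
    rw [hd]
    have hM := (Φ.mem X _ _ h2).2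
    intro v hv h0
    refine inj_of_traces _ (W'.pj (Φ.var X) i) ?_ (pj_idem _ i) (fun k => ?_) v
      (pj_mulVec i v hv) h0
    · exact (pj_comm0 (hW'.cyc_deg _ _ 0 _ hM) i).symm
    · obtain ⟨q, hq, hq'⟩ := hkm _ _ (hcpow _ _ h2 k)
      obtain ⟨r, hr, hr'⟩ := hkm _ _ (Φ.one X)
      simp only [Weil.id, one_mul] at hr hr'
      have h3 : W.pj X i ^ k * W.pj X i = W.pj X i := by
        induction k with
        | zero => rw [pow_zero, one_mul]
        | succ k ih => rw [← pow_succ]; exact (show IsIdempotentElem (W.pj X i) from pj_idem X i).pow_succ_eq _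
      rw [h3] at hq
      have h4 : q = r := by
        have h5 : (q : K) = (r : K) := by rw [← hq, ← hr]
        exact_mod_cast h5
      rw [hq', hr', h4]
  · intro h
    obtain ⟨L', hLX'⟩ := hL'.nonempty (Φ.var X)
    obtain ⟨L, hLX, hcL⟩ := E.lef' X L' hLX'
    obtain ⟨θ', hθ', -, hθL⟩ := core hW' hL' (by omega) h hLX'
    rw [hd] at hθ' hθL
    obtain ⟨θ, hcθ⟩ := E.right X _ θ' hθ'
    have h1 := E.comp X _ _ _ _ _ _ (cls_pow E hcL (W.dim X - i)) hcθ
    have e : ((W.dim X - i : ℕ) : ℤ) + ((i : ℤ) - W.dim X) = 0 := by omega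
    rw [e] at h1
    simp only [Weil.comp] at h1
    rw [hθL] at h1
    have h2 := E.zero X _ _ h1
    have hθm := (E.mem X _ _ _ hcθ).1
    refine pure_of_inj hW hL hi
      ((Φ.transfer hW hW' X (fun d => d = i)).2 (core_pj hW' hL' (by omega) h)) hLX hθm ?_
    have hM := (Φ.mem X _ _ h2).1
    intro v hv h0
    refine inj_of_traces _ (W.pj X i) ?_ (pj_idem _ i) (fun k => ?_) v (pj_mulVec i v hv) h0
    · exact (pj_comm0 (hW.cyc_deg _ _ 0 _ hM) i).symm
    · obtain ⟨q, hq, hq'⟩ := hkm _ _ (hcpow _ _ h2 k)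
      obtain ⟨r, hr, hr'⟩ := hkm _ _ (Φ.one X)
      simp only [Weil.id, one_mul] at hr hr'
      have h3 : W'.pj (Φ.var X) i ^ k * W'.pj (Φ.var X) i = W'.pj (Φ.var X) i := by
        rw [← pow_succ]
        exact (show IsIdempotentElem (W'.pj (Φ.var X) i) from pj_idem _ i).pow_succ_eq _
      rw [h3] at hq'
      have h4 : q = r := by
        have h5 : (q : K') = (r : K') := by rw [← hq', ← hr']
        exact_mod_cast h5
      rw [hq, hr, h4]

end Pool.Agent.H64.FL
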